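import Pool.Agent.Q266.HY.Core

/-!
# The exponent of dense hypergraphs in regular `r`-partite form
-/

set_option autoImplicit false

open Finset

namespace Pool.Agent.Q266.HY

/-- All degrees of the `r`-partite hypergraph are equal to `q`. -/
def Reg {r m : ℕ} (K : Finset (Fin r → Fin m)) (q : ℕ) : Prop :=
  ∀ i a, (K.filter fun k => k i = a).card = q

theorem Reg.card {r m q : ℕ} {K : Finset (Fin r → Fin m)} (h : Reg K q) (hr : 1 ≤ r) :
    K.card = m * q := by
  rw [card_eq_sum_card_fiberwise (f := fun k : Fin r → Fin m => k ⟨0, hr⟩) (t := univ)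
    fun x _ => mem_univ _]
  rw [sum_congr rfl fun a _ => h ⟨0, hr⟩ a, sum_const, card_univ, Fintype.card_fin, smul_eq_mul]

/-- Any `e` edges have together more than `d` vertices. -/
def Free {V : Type} [DecidableEq V] (H : Finset (Finset V)) (d e : ℕ) : Prop :=
  ∀ T ⊆ H, T.card = e → d < (T.biUnion id).card

/-- Any `e` edges have together more than `d` vertices. -/
def FreeK {r m : ℕ} (K : Finset (Fin r → Fin m)) (d e : ℕ) : Prop :=
  ∀ T ⊆ K, T.card = e → d < (verts T).card

theorem freeK_of_free {V : Type} [DecidableEq V] {r m d e : ℕ} {H : Finset (Finset V)}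
    (hH : Free H d e) {K : Finset (Fin r → Fin m)} {ρ : Fin r → Fin m → V}
    (h1 : ∀ k ∈ K, univ.image (fun i => ρ i (k i)) ∈ H)
    (h2 : Set.InjOn (fun k : Fin r → Fin m => univ.image (fun i => ρ i (k i))) K) :
    FreeK K d e := by
  intro T hT hc
  have h3 := card_image_le_verts ρ T
  have h4 : (T.image fun k => univ.image (fun i => ρ i (k i))).card = e := by
    rw [card_image_of_injOn (h2.mono (coe_subset.2 hT)), hc]
  have h5 : (T.image fun k => univ.image (fun i => ρ i (k i))) ⊆ H := by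
    intro x hx
    obtain ⟨k, hk, rfl⟩ := mem_image.1 hx
    exact h1 k (hT hk)
  exact lt_of_lt_of_le (hH _ h5 h4) h3

/-- Dense hypergraphs give dense regular `r`-partite hypergraphs. -/
theorem asym (r : ℕ) (hr : 1 ≤ r) (α c : ℝ) (hα : 1 < α) (hc : 0 < c) : ∃ c' : ℝ, 0 < c' ∧
    ∀ N : ℕ, ∃ N' : ℕ, ∀ n ≥ N', ∀ H : Finset (Finset (Fin n)), (∀ e ∈ H, e.card = r) →
      c * (n : ℝ) ^ α ≤ H.card →
      ∃ (q m : ℕ) (K : Finset (Fin r → Fin m)) (ρ : Fin r → Fin m → Fin n), N ≤ m ∧
        c' * (m : ℝ) ^ (α - 1) ≤ q ∧ Reg K q ∧ (∀ k ∈ K, univ.image (fun i => ρ i (k i)) ∈ H) ∧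
        Set.InjOn (fun k : Fin r → Fin m => univ.image (fun i => ρ i (k i))) K := by
  have hr0 : (0 : ℝ) < r := by exact_mod_cast hr
  have hr1 : (1 : ℝ) ≤ r := by exact_mod_cast hr
  refine ⟨c / (4 * r) / (8 * r) ^ (α - 1), by positivity, fun N => ?_⟩
  set B : ℝ := 4 * r * ((N : ℝ) ^ r + 1) / c with hB
  have hlim : ∀ᶠ n : ℕ in Filter.atTop, B ≤ (n : ℝ) ^ (α - 1) := by
    have h1 := (tendsto_rpow_atTop (show 0 < α - 1 by linarith)).comp
      (tendsto_natCast_atTop_atTop (R := ℝ))
    exact h1.eventually_ge_atTop B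
  obtain ⟨N', hN'⟩ := Filter.eventually_atTop.1 hlim
  refine ⟨N' + 1, fun n hn H hH hE => ?_⟩
  have hn1 : 1 ≤ n := by omega
  have hn0 : (0 : ℝ) < n := by exact_mod_cast hn1
  have hn1' : (1 : ℝ) ≤ n := by exact_mod_cast hn1
  set A : ℝ := (n : ℝ) ^ (α - 1) with hA
  have hBA : B ≤ A := hN' n (by omega)
  have hA0 : 0 < A := by positivity
  have hnα : (n : ℝ) ^ α = n * A := by
    rw [hA, ← Real.rpow_one_add' hn0.le (by linarith)]
    congr 1
    ring
  have hNr : 0 ≤ (N : ℝ) ^ r := by positivity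
  have hcA : (N : ℝ) ^ r + 1 ≤ c * A / (4 * r) := by
    rw [le_div_iff₀ (by positivity)]
    have h1 : c * B = 4 * r * ((N : ℝ) ^ r + 1) := by
      rw [hB]
      field_simp
    have h2 : c * B ≤ c * A := mul_le_mul_of_nonneg_left hBA hc.le
    linarith
  set y : ℝ := c * A / (2 * r) with hy
  have hy2 : y = 2 * (c * A / (4 * r)) := by
    rw [hy]
    field_simp
    ring
  have hy1 : 1 ≤ y := by linarith
  set x : ℕ := ⌊y⌋₊ with hx
  have hx1 : 1 ≤ x := by
    rw [hx, Nat.le_floor_iff (by linarith)]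
    exact_mod_cast hy1
  have hxy : (x : ℝ) ≤ y := Nat.floor_le (by linarith)
  have hyx : y < 2 * x := by
    have h1 := Nat.lt_floor_add_one y
    have h2 : (1 : ℝ) ≤ x := by exact_mod_cast hx1
    rw [← hx] at h1
    linarith
  obtain ⟨q, hq, hxq, hqx⟩ := Nat.exists_prime_lt_and_le_two_mul x (by omega)
  have hE0 : 0 ≤ c * (n : ℝ) ^ α := by positivity
  obtain ⟨H', hH', hc'⟩ := exists_subset_card_eq (Nat.ceil_le.2 hE)
  have hbig : (q - 1) * (r * Fintype.card (Fin n)) < H'.card := by
    rw [hc', Fintype.card_fin]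
    have h1 : (q - 1) * (r * n) < q * (r * n) :=
      Nat.mul_lt_mul_of_pos_right (by have := hq.one_lt; omega) (Nat.mul_pos hr hn1)
    refine lt_of_lt_of_le h1 ?_
    have h2 : ((q * (r * n) : ℕ) : ℝ) ≤ (⌈c * (n : ℝ) ^ α⌉₊ : ℝ) := by
      refine le_trans ?_ (Nat.le_ceil _)
      push_cast
      have h3 : (q : ℝ) ≤ 2 * y := by
        have : (q : ℝ) ≤ 2 * x := by exact_mod_cast hqx
        linarith
      calc (q : ℝ) * (r * n) ≤ 2 * y * (r * n) := mul_le_mul_of_nonneg_right h3 (by positivity)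
        _ = c * (n * A) := by
          rw [hy]
          field_simp
        _ = c * (n : ℝ) ^ α := by rw [hnα]
    exact_mod_cast h2
  obtain ⟨m, K, ρ, hm, hmq, hKc, hreg, hK1, hK2⟩ := core r q hr hq H' (fun e he => hH e (hH' he)) hbig
  refine ⟨q, m, K, ρ, ?_, ?_, hreg, fun k hk => hH' (hK1 k hk), hK2⟩
  · -- the number of vertices tends to infinity
    by_contra hlt
    push Not at hlt
    have h1 : K.card ≤ m ^ r := by
      have := card_le_univ K
      rwa [Fintype.card_fun, Fintype.card_fin, Fintype.card_fin] at this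
    have h2 : q ≤ N ^ r := by
      calc q = 1 * q := (one_mul q).symm
        _ ≤ m * q := Nat.mul_le_mul_right q hm
        _ = K.card := hKc.symm
        _ ≤ m ^ r := h1
        _ ≤ N ^ r := Nat.pow_le_pow_left hlt.le r
    have h3 : (q : ℝ) ≤ (N : ℝ) ^ r := by exact_mod_cast h2
    have h4 : (x : ℝ) < q := by exact_mod_cast hxq
    linarith
  · have hq1 : c * A / (4 * r) ≤ q := by
      have h4 : (x : ℝ) < q := by exact_mod_cast hxq
      linarith
    have hm8 : (m : ℝ) ≤ 8 * r * n := by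
      have h1 : (m : ℝ) * q ≤ 2 * (c * (n * A)) := by
        have h2 : ((m * q : ℕ) : ℝ) ≤ (⌈c * (n : ℝ) ^ α⌉₊ : ℝ) := by
          rw [hc'] at hmq
          exact_mod_cast hmq
        have h3 : (⌈c * (n : ℝ) ^ α⌉₊ : ℝ) < c * (n : ℝ) ^ α + 1 := Nat.ceil_lt_add_one hE0
        push_cast at h2
        have h5 : 1 ≤ c * (n * A) := by
          have h6 : 1 ≤ c * A := by
            have h7 : c * A / (4 * r) * (4 * r) = c * A := by field_simp
            nlinarith
          nlinarith
        rw [hnα] at h3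
        rw [hnα] at h2
        linarith
      have h2 : (m : ℝ) * (c * A / (4 * r)) ≤ (8 * r * n) * (c * A / (4 * r)) := by
        calc (m : ℝ) * (c * A / (4 * r)) ≤ m * q := mul_le_mul_of_nonneg_left hq1 (Nat.cast_nonneg _)
          _ ≤ 2 * (c * (n * A)) := h1
          _ = (8 * r * n) * (c * A / (4 * r)) := by
            field_simp
            ring
      exact le_of_mul_le_mul_right h2 (by positivity)
    have h3 : (m : ℝ) ^ (α - 1) ≤ (8 * r) ^ (α - 1) * A := by
      rw [hA, ← Real.mul_rpow (by positivity) (by positivity)]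
      exact Real.rpow_le_rpow (Nat.cast_nonneg _) hm8 (by linarith)
    calc c / (4 * r) / (8 * r) ^ (α - 1) * (m : ℝ) ^ (α - 1)
        ≤ c / (4 * r) / (8 * r) ^ (α - 1) * ((8 * r) ^ (α - 1) * A) :=
          mul_le_mul_of_nonneg_left h3 (by positivity)
      _ = c * A / (4 * r) := by
        have : (0 : ℝ) < (8 * r) ^ (α - 1) := by positivity
        field_simp
      _ ≤ q := hq1

/-- An `r`-partite hypergraph as a hypergraph on `Fin (r * m)`. -/
def toH {r m : ℕ} (K : Finset (Fin r → Fin m)) : Finset (Finset (Fin (r * m))) :=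
  K.image fun k => univ.image fun i => finProdFinEquiv (i, k i)

theorem edge_inj {r m : ℕ} : Function.Injective fun k : Fin r → Fin m =>
    (univ.image fun i => finProdFinEquiv (i, k i) : Finset (Fin (r * m))) := by
  intro k k' h
  funext i
  have h1 : finProdFinEquiv (i, k i) ∈
      (univ.image fun i => finProdFinEquiv (i, k' i) : Finset (Fin (r * m))) := by
    have : finProdFinEquiv (i, k i) ∈
        (univ.image fun i => finProdFinEquiv (i, k i) : Finset (Fin (r * m))) :=
      mem_image.2 ⟨i, mem_univ _, rfl⟩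
    rw [← show (fun k : Fin r → Fin m =>
      (univ.image fun i => finProdFinEquiv (i, k i) : Finset (Fin (r * m)))) k =
      (univ.image fun i => finProdFinEquiv (i, k' i) : Finset (Fin (r * m))) from h]
    exact this
  obtain ⟨j, _, hj⟩ := mem_image.1 h1
  have h2 := finProdFinEquiv.injective hj
  rw [Prod.mk.injEq] at h2
  rw [← h2.2, h2.1]

theorem card_toH {r m : ℕ} (K : Finset (Fin r → Fin m)) : (toH K).card = K.card :=
  card_image_of_injective _ edge_inj

theorem unif_toH {r m : ℕ} (K : Finset (Fin r → Fin m)) : ∀ e ∈ toH K, e.card = r := by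
  intro e he
  obtain ⟨k, _, rfl⟩ := mem_image.1 he
  rw [card_image_of_injective, card_univ, Fintype.card_fin]
  intro i j hij
  exact (Prod.mk.inj (finProdFinEquiv.injective hij)).1

theorem toH_sub {r m : ℕ} {K : Finset (Fin r → Fin m)} {T : Finset (Finset (Fin (r * m)))}
    (hT : T ⊆ toH K) : ∃ T0 ⊆ K, T0.card = T.card ∧ (T.biUnion id).card = (verts T0).card ∧
      T = toH T0 := by
  classical
  obtain ⟨T0, hT0, rfl⟩ := subset_image_iff.1 hT
  refine ⟨T0, by exact_mod_cast hT0, (card_toH T0).symm, ?_, rfl⟩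
  have h1 : ((T0.image fun k => univ.image fun i => finProdFinEquiv (i, k i)).biUnion id :
      Finset (Fin (r * m))) = (verts T0).image finProdFinEquiv := by
    ext v
    simp only [mem_biUnion, mem_image, id, exists_exists_and_eq_and, mem_univ, true_and]
    constructor
    · rintro ⟨k, hk, i, rfl⟩
      exact ⟨(i, k i), (mem_verts _ _).2 ⟨k, hk, rfl⟩, rfl⟩
    · rintro ⟨⟨i, a⟩, hp, rfl⟩
      obtain ⟨k, hk, hka⟩ := (mem_verts _ _).1 hp
      exact ⟨k, hk, i, by rw [hka]⟩
  rw [h1, card_image_of_injective _ finProdFinEquiv.injective]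

theorem free_toH {r m d e : ℕ} {K : Finset (Fin r → Fin m)} (h : FreeK K d e) :
    Free (toH K) d e := by
  intro T hT hc
  obtain ⟨T0, h1, h2, h3, -⟩ := toH_sub hT
  rw [h3]
  exact h T0 h1 (h2.trans hc)

end Pool.Agent.Q266.HY
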