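import Mathlib

/-!
# Subhypergraphs with all degrees divisible by a prime, and splitting of vertices

After Alon, Friedland and Kalai: a hypergraph with `n` vertices and more than `(q - 1) n` edges, `q`
a prime, has a nonempty subhypergraph all of whose degrees are divisible by `q`.
-/

set_option autoImplicit false

open Finset MvPolynomial

namespace Pool.Agent.Q266.HY

/-- Divisible degrees (Chevalley-Warning). -/
theorem exists_mod {E P : Type} [Fintype E] [Fintype P] [DecidableEq E]
    (inc : P → E → Prop) [∀ p e, Decidable (inc p e)] (q : ℕ) [hq : Fact q.Prime]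
    (h : (q - 1) * Fintype.card P < Fintype.card E) :
    ∃ S : Finset E, S.Nonempty ∧ ∀ p, q ∣ (S.filter fun e => inc p e).card := by
  classical
  have hq2 : 2 ≤ q := hq.out.two_le
  let f : P → MvPolynomial E (ZMod q) := fun p =>
    ∑ e : E, if inc p e then (X e : MvPolynomial E (ZMod q)) ^ (q - 1) else 0
  have hdeg : ∀ v, (f v).totalDegree ≤ q - 1 := by
    intro v
    apply totalDegree_finsetSum_le
    intro e _
    split_ifs
    · rw [totalDegree_X_pow]
    · simp
  have hsum : (∑ v ∈ (univ : Finset P), (f v).totalDegree) < Fintype.card E := by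
    calc (∑ v ∈ (univ : Finset P), (f v).totalDegree) ≤ ∑ v ∈ (univ : Finset P), (q - 1) :=
          sum_le_sum fun v _ => hdeg v
      _ = (q - 1) * Fintype.card P := by rw [sum_const, card_univ, smul_eq_mul, mul_comm]
      _ < Fintype.card E := h
  have hcw : q ∣ Fintype.card {x : E → ZMod q // ∀ v ∈ (univ : Finset P), eval x (f v) = 0} := by
    convert char_dvd_card_solutions_of_sum_lt q hsum
  have heval : ∀ (x : E → ZMod q) (v : P), eval x (f v) =
      ((univ.filter fun e : E => inc v e ∧ x e ≠ 0).card : ZMod q) := by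
    intro x v
    simp only [f, map_sum]
    rw [card_filter]
    push_cast
    apply sum_congr rfl
    intro e _
    by_cases hv : inc v e
    · rw [if_pos hv]
      simp only [map_pow, eval_X, hv, true_and]
      by_cases hx : x e = 0
      · rw [hx, if_neg (by simp), zero_pow (by omega)]
      · rw [if_pos hx, ZMod.pow_card_sub_one_eq_one hx]
    · simp [hv]
  have hzero : ∀ v ∈ (univ : Finset P), eval (0 : E → ZMod q) (f v) = 0 := by
    intro v _
    rw [heval]
    simp
  have hcard : 1 < Fintype.card {x : E → ZMod q // ∀ v ∈ (univ : Finset P), eval x (f v) = 0} := by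
    have hpos : 0 < Fintype.card {x : E → ZMod q // ∀ v ∈ (univ : Finset P), eval x (f v) = 0} :=
      Fintype.card_pos_iff.2 ⟨⟨0, hzero⟩⟩
    have := Nat.le_of_dvd hpos hcw
    omega
  obtain ⟨⟨x, hx⟩, hne⟩ := Fintype.exists_ne_of_one_lt_card hcard ⟨0, hzero⟩
  have hx0 : x ≠ 0 := fun h0 => hne (Subtype.ext h0)
  obtain ⟨e0, he0⟩ := Function.ne_iff.1 hx0
  refine ⟨univ.filter fun e => x e ≠ 0, ⟨e0, by simpa using he0⟩, fun v => ?_⟩
  have h1 := hx v (mem_univ v)
  rw [heval, ZMod.natCast_eq_zero_iff] at h1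
  convert h1 using 2
  ext e
  simp only [mem_filter, mem_univ, true_and]
  exact and_comm

/-- Classes of size `q`. -/
theorem classes {α : Type} [DecidableEq α] (q : ℕ) : ∀ (k : ℕ) (T : Finset α), T.card = q * k →
    ∃ g : α → ℕ, (∀ x ∈ T, g x < k) ∧ ∀ j < k, (T.filter fun x => g x = j).card = q := by
  intro k
  induction k with
  | zero =>
    intro T hT
    have : T = ∅ := card_eq_zero.1 (by rw [hT, mul_zero])
    subst this
    exact ⟨fun _ => 0, by simp, by simp⟩
  | succ k ih =>
    intro T hT
    obtain ⟨T', hT', hc⟩ := exists_subset_card_eq (s := T) (n := q) (by rw [hT]; nlinarith)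
    obtain ⟨g, hg1, hg2⟩ := ih (T \ T') (by
      rw [card_sdiff_of_subset hT', hT, hc, Nat.mul_succ]
      omega)
    refine ⟨fun x => if x ∈ T' then k else g x, ?_, ?_⟩
    · intro x hx
      by_cases h : x ∈ T'
      · simp [h]
      · have := hg1 x (mem_sdiff.2 ⟨hx, h⟩)
        simp only [h, if_false]
        omega
    · intro j hj
      rcases Nat.lt_succ_iff_lt_or_eq.1 hj with h | h
      · rw [← hg2 j h]
        congr 1
        ext x
        simp only [mem_filter, mem_sdiff]
        constructor
        · rintro ⟨h1, h2⟩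
          by_cases h3 : x ∈ T'
          · rw [if_pos h3] at h2
            omega
          · rw [if_neg h3] at h2
            exact ⟨⟨h1, h3⟩, h2⟩
        · rintro ⟨⟨h1, h3⟩, h2⟩
          exact ⟨h1, by rw [if_neg h3]; exact h2⟩
      · subst h
        rw [← hc]
        congr 1
        ext x
        simp only [mem_filter]
        constructor
        · rintro ⟨h1, h2⟩
          by_contra h3
          rw [if_neg h3] at h2
          have := hg1 x (mem_sdiff.2 ⟨h1, h3⟩)
          omega
        · intro h3
          exact ⟨hT' h3, by rw [if_pos h3]⟩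

/-- Splitting the vertices of one part: labels `< m`, `q` elements for each label, the label
determines the value. -/
theorem labels {α V : Type} [DecidableEq α] [Fintype V] [DecidableEq V] (S : Finset α) (f : α → V)
    (q : ℕ) (hq : 0 < q) (hdiv : ∀ v, q ∣ (S.filter fun x => f x = v).card) (m : ℕ)
    (hm : S.card = m * q) :
    ∃ (lab : α → ℕ) (ρ : Fin m → V), (∀ x ∈ S, ∃ h : lab x < m,
      ρ ⟨lab x, h⟩ = f x) ∧ ∀ a < m, (S.filter fun x => lab x = a).card = q := by
  classical
  have hdv : ∀ v, ∃ k, (S.filter fun x => f x = v).card = q * k := fun v => hdiv v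
  choose k hk using hdv
  have hcl : ∀ v, ∃ g : α → ℕ, (∀ x ∈ S.filter (fun x => f x = v), g x < k v) ∧
      ∀ j < k v, ((S.filter fun x => f x = v).filter fun x => g x = j).card = q :=
    fun v => classes q (k v) _ (hk v)
  choose g hg1 hg2 using hcl
  have hcard : Fintype.card (Σ v : V, Fin (k v)) = m := by
    rw [Fintype.card_sigma]
    simp only [Fintype.card_fin]
    have h1 : S.card = ∑ v, (S.filter fun x => f x = v).card :=
      card_eq_sum_card_fiberwise fun x _ => mem_univ (f x)
    have h2 : q * ∑ v, k v = q * m := by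
      rw [mul_sum, mul_comm q m, ← hm, h1]
      exact sum_congr rfl fun v _ => (hk v).symm
    exact Nat.eq_of_mul_eq_mul_left hq h2
  let e : (Σ v : V, Fin (k v)) ≃ Fin m := Fintype.equivFinOfCardEq hcard
  have hlt : ∀ x ∈ S, g (f x) x < k (f x) := fun x hx => hg1 (f x) x (mem_filter.2 ⟨hx, rfl⟩)
  refine ⟨fun x => if h : x ∈ S then (e ⟨f x, ⟨g (f x) x, hlt x h⟩⟩ : ℕ) else m,
    fun a => (e.symm a).1, ?_, ?_⟩
  · intro x hx
    refine ⟨by simp only [dif_pos hx]; exact (e _).2, ?_⟩
    simp only [dif_pos hx, Fin.eta, Equiv.symm_apply_apply]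
  · intro a ha
    rcases hvj : e.symm ⟨a, ha⟩ with ⟨v, j⟩
    rw [← hg2 v j j.2]
    congr 1
    ext x
    simp only [mem_filter]
    constructor
    · rintro ⟨hx, hxa⟩
      rw [dif_pos hx] at hxa
      have h1 : e ⟨f x, ⟨g (f x) x, hlt x hx⟩⟩ = ⟨a, ha⟩ := Fin.ext hxa
      have h2 : (⟨f x, ⟨g (f x) x, hlt x hx⟩⟩ : Σ v : V, Fin (k v)) = ⟨v, j⟩ := by
        rw [← hvj, ← h1, Equiv.symm_apply_apply]
      have h3 : f x = v := congrArg Sigma.fst h2
      subst h3
      have h4 : (⟨g (f x) x, hlt x hx⟩ : Fin (k (f x))) = j := by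
        simpa using h2
      exact ⟨⟨hx, rfl⟩, congrArg Fin.val h4⟩
    · rintro ⟨⟨hx, rfl⟩, hj⟩
      refine ⟨hx, ?_⟩
      rw [dif_pos hx]
      have h2 : (⟨f x, ⟨g (f x) x, hlt x hx⟩⟩ : Σ v : V, Fin (k v)) = ⟨f x, j⟩ := by
        congr 1
        exact Fin.ext hj
      rw [h2, ← hvj, Equiv.apply_symm_apply]

/-- **Regularization.** From an `r`-uniform hypergraph with `n` vertices and more than
`(q - 1) r n` edges, `q` a prime, one gets an `r`-partite `r`-uniform hypergraph with all degrees
equal to `q`, by omitting edges and splitting vertices. -/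
theorem core {V : Type} [Fintype V] [DecidableEq V] (r q : ℕ) (hr : 1 ≤ r) (hq : q.Prime)
    (H : Finset (Finset V)) (hH : ∀ e ∈ H, e.card = r)
    (hbig : (q - 1) * (r * Fintype.card V) < H.card) :
    ∃ (m : ℕ) (K : Finset (Fin r → Fin m)) (ρ : Fin r → Fin m → V), 0 < m ∧ m * q ≤ H.card ∧
      K.card = m * q ∧ (∀ i a, (K.filter fun k => k i = a).card = q) ∧
      (∀ k ∈ K, univ.image (fun i => ρ i (k i)) ∈ H) ∧
      Set.InjOn (fun k : Fin r → Fin m => univ.image (fun i => ρ i (k i))) K := by
  classical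
  have : Fact q.Prime := ⟨hq⟩
  -- orderings of the edges
  have hord : ∀ e : H, ∃ φ : Fin r → V, univ.image φ = e.1 := by
    intro e
    have hc := hH e.1 e.2
    let f := e.1.equivFinOfCardEq hc
    refine ⟨fun i => (f.symm i).1, ?_⟩
    ext v
    simp only [mem_image, mem_univ, true_and]
    constructor
    · rintro ⟨i, rfl⟩
      exact (f.symm i).2
    · intro hv
      exact ⟨f ⟨v, hv⟩, by simp⟩
  choose φ hφ using hord
  obtain ⟨S, ⟨s0, hs0⟩, hS⟩ := exists_mod (E := H) (P := Fin r × V)
    (fun p e => φ e p.1 = p.2) q (by simpa using hbig)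
  have hqS : q ∣ S.card := by
    have h1 : S.card = ∑ v, (S.filter fun x => φ x ⟨0, hr⟩ = v).card :=
      card_eq_sum_card_fiberwise fun x _ => mem_univ _
    rw [h1]
    exact dvd_sum fun v _ => hS (⟨0, hr⟩, v)
  obtain ⟨m, hm'⟩ := hqS
  have hm : S.card = m * q := by rw [hm', mul_comm]
  have hl := fun i : Fin r => labels S (fun e => φ e i) q hq.pos (fun v => hS (i, v)) m hm
  choose lab ρ h1 h2 using hl
  have hlt : ∀ e ∈ S, ∀ i, lab i e < m := fun e he i => (h1 i e he).1
  have hρ : ∀ e ∈ S, ∀ i (h : lab i e < m), ρ i ⟨lab i e, h⟩ = φ e i := fun e he i h => (h1 i e he).2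
  let κ : S → (Fin r → Fin m) := fun e i => ⟨lab i e.1, hlt e.1 e.2 i⟩
  have hκρ : ∀ e : S, univ.image (fun i => ρ i (κ e i)) = e.1.1 := by
    intro e
    rw [← hφ e.1]
    congr 1
    funext i
    exact hρ e.1 e.2 i _
  have hκinj : Function.Injective κ := by
    intro e e' hee
    have := (hκρ e).symm.trans ((by rw [hee]) : _ = univ.image (fun i => ρ i (κ e' i)))
    rw [hκρ] at this
    exact Subtype.ext (Subtype.ext this)
  refine ⟨m, univ.image κ, ρ, ?_, ?_, ?_, ?_, ?_, ?_⟩
  · rcases Nat.eq_zero_or_pos m with h | h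
    · rw [h, zero_mul] at hm
      rw [card_eq_zero.1 hm] at hs0
      exact absurd hs0 (notMem_empty _)
    · exact h
  · rw [← hm]
    have := card_le_univ S
    rwa [Fintype.card_coe] at this
  · rw [card_image_of_injective _ hκinj, card_univ, Fintype.card_coe, hm]
  · intro i a
    rw [filter_image, card_image_of_injective _ hκinj, ← h2 i a a.2]
    rw [← card_map (Function.Embedding.subtype _)]
    congr 1
    ext e
    simp only [mem_map, mem_filter, mem_univ, true_and, Function.Embedding.subtype_apply,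
      Subtype.exists, exists_and_right, exists_eq_right]
    constructor
    · rintro ⟨he, h3⟩
      exact ⟨he, congrArg Fin.val h3⟩
    · rintro ⟨he, h3⟩
      exact ⟨he, Fin.ext h3⟩
  · intro k hk
    obtain ⟨e, _, rfl⟩ := mem_image.1 hk
    rw [hκρ]
    exact e.1.2
  · intro k hk k' hk' hkk
    obtain ⟨e, _, rfl⟩ := mem_image.1 (mem_coe.1 hk)
    obtain ⟨e', _, rfl⟩ := mem_image.1 (mem_coe.1 hk')
    simp only [hκρ] at hkk
    rw [Subtype.ext (Subtype.ext hkk)]

/-- The vertices of a set of edges of an `r`-partite hypergraph. -/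
def verts {r m : ℕ} (T : Finset (Fin r → Fin m)) : Finset (Fin r × Fin m) :=
  T.biUnion fun k => univ.image fun i => (i, k i)

theorem mem_verts {r m : ℕ} (T : Finset (Fin r → Fin m)) (p : Fin r × Fin m) :
    p ∈ verts T ↔ ∃ k ∈ T, k p.1 = p.2 := by
  unfold verts
  simp only [mem_biUnion, mem_image, mem_univ, true_and]
  constructor
  · rintro ⟨k, hk, i, rfl⟩
    exact ⟨k, hk, rfl⟩
  · rintro ⟨k, hk, h⟩
    exact ⟨k, hk, p.1, by rw [h]⟩

/-- The union of the images of some edges has at most as many elements as there are vertices. -/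
theorem card_image_le_verts {V : Type} [DecidableEq V] {r m : ℕ} (ρ : Fin r → Fin m → V)
    (T : Finset (Fin r → Fin m)) :
    ((T.image fun k => univ.image (fun i => ρ i (k i))).biUnion id).card ≤ (verts T).card := by
  classical
  refine le_trans (card_le_card ?_) (card_image_le (s := verts T) (f := fun p => ρ p.1 p.2))
  intro v hv
  simp only [mem_biUnion, mem_image, id, exists_exists_and_eq_and, mem_univ, true_and] at hv
  obtain ⟨k, hk, i, rfl⟩ := hv
  exact mem_image.2 ⟨(i, k i), (mem_verts _ _).2 ⟨k, hk, rfl⟩, rfl⟩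

end Pool.Agent.Q266.HY
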