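import Pool.Agent.Q266.HY.Asym

/-!
# Linear subsystems of triple systems
-/

set_option autoImplicit false

open Finset

namespace Pool.Agent.Q266.HY

/-- A triple system in which each pair is in at most `D` triples has a linear subsystem with at
least the proportion `1 / (3 D)` of the triples. -/
theorem exists_linear {V : Type} [DecidableEq V] (H : Finset (Finset V))
    (hH : ∀ x ∈ H, x.card = 3) (D : ℕ)
    (hD : ∀ p : Finset V, p.card = 2 → (H.filter fun x => p ⊆ x).card ≤ D) :
    ∃ L ⊆ H, (∀ x ∈ L, ∀ y ∈ L, x ≠ y → (x ∩ y).card ≤ 1) ∧ H.card ≤ 3 * D * L.card := by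
  classical
  let F := H.powerset.filter fun L => ∀ x ∈ L, ∀ y ∈ L, x ≠ y → (x ∩ y).card ≤ 1
  have hF : F.Nonempty := ⟨∅, by simp [F]⟩
  obtain ⟨L, hL, hmax⟩ := exists_max_image F card hF
  obtain ⟨hL1, hL2⟩ := mem_filter.1 hL
  rw [mem_powerset] at hL1
  refine ⟨L, hL1, hL2, ?_⟩
  have key : ∀ x ∈ H, ∃ f ∈ L, 2 ≤ (x ∩ f).card := by
    intro x hx
    by_cases hxL : x ∈ L
    · exact ⟨x, hxL, by rw [inter_self, hH x hx]; norm_num⟩
    · by_contra hcon
      push Not at hcon
      have h1 : insert x L ∈ F := by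
        refine mem_filter.2 ⟨mem_powerset.2 (insert_subset hx hL1), ?_⟩
        intro a ha b hb hab
        rcases mem_insert.1 ha with h1 | h1
        · rcases mem_insert.1 hb with h2 | h2
          · exact absurd (h1.trans h2.symm) hab
          · have := hcon b h2
            rw [h1]
            omega
        · rcases mem_insert.1 hb with h2 | h2
          · have := hcon a h1
            rw [inter_comm, h2]
            omega
          · exact hL2 a h1 b h2 hab
      have h2 := hmax _ h1
      rw [card_insert_of_notMem hxL] at h2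
      omega
  have hsub : H ⊆ L.biUnion fun f => (f.powersetCard 2).biUnion fun p => H.filter fun x => p ⊆ x := by
    intro x hx
    obtain ⟨f, hf, h2⟩ := key x hx
    obtain ⟨p, hp, hpc⟩ := exists_subset_card_eq h2
    rw [mem_biUnion]
    refine ⟨f, hf, ?_⟩
    rw [mem_biUnion]
    exact ⟨p, mem_powersetCard.2 ⟨hp.trans inter_subset_right, hpc⟩,
      mem_filter.2 ⟨hx, hp.trans inter_subset_left⟩⟩
  refine (card_le_card hsub).trans ?_
  have h3 : ∀ f ∈ L, ((f.powersetCard 2).biUnion fun p => H.filter fun x => p ⊆ x).card ≤ 3 * D := by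
    intro f hf
    refine card_biUnion_le.trans ?_
    refine (sum_le_sum fun p hp => hD p (mem_powersetCard.1 hp).2).trans ?_
    rw [sum_const, card_powersetCard, hH f (hL1 hf), smul_eq_mul]
    exact le_of_eq (by norm_num [Nat.choose])
  refine card_biUnion_le.trans ((sum_le_sum h3).trans ?_)
  rw [sum_const, smul_eq_mul, mul_comm]

/-- If no `k` vertices span `k - 3` triples then each pair is in at most `k` triples. -/
theorem codegree {n k : ℕ} (hk : 4 ≤ k) (hn : k ≤ n) (H : Finset (Finset (Fin n)))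
    (hH : ∀ x ∈ H, x.card = 3)
    (hfree : ∀ S : Finset (Fin n), S.card = k → (H.filter fun x => x ⊆ S).card < k - 3)
    (p : Finset (Fin n)) (hp : p.card = 2) : (H.filter fun x => p ⊆ x).card ≤ k := by
  by_contra hcon
  push Not at hcon
  obtain ⟨T, hT, hTc⟩ := exists_subset_card_eq (show k - 3 ≤ (H.filter fun x => p ⊆ x).card by omega)
  have h1 : (T.biUnion id) ⊆ p ∪ T.biUnion fun x => x \ p := by
    intro v hv
    obtain ⟨x, hx, hvx⟩ := mem_biUnion.1 hv
    by_cases h : v ∈ p
    · exact mem_union_left _ h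
    · exact mem_union_right _ (mem_biUnion.2 ⟨x, hx, mem_sdiff.2 ⟨hvx, h⟩⟩)
  have h2 : (T.biUnion fun x => x \ p).card ≤ k - 3 := by
    refine card_biUnion_le.trans ?_
    have h3 : ∀ x ∈ T, (x \ p).card ≤ 1 := by
      intro x hx
      have h4 := mem_filter.1 (hT hx)
      rw [card_sdiff_of_subset h4.2, hH x h4.1, hp]
    refine (sum_le_sum h3).trans ?_
    rw [sum_const, hTc]
    simp
  have h3 : (T.biUnion id).card ≤ k := by
    have h4 := card_le_card h1
    have h5 := card_union_le p (T.biUnion fun x => x \ p)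
    omega
  obtain ⟨S, hS, -, hSc⟩ := exists_subsuperset_card_eq (subset_univ (T.biUnion id)) h3
    (by rw [card_univ, Fintype.card_fin]; exact hn)
  have h4 : T ⊆ H.filter fun x => x ⊆ S := by
    intro x hx
    refine mem_filter.2 ⟨(mem_filter.1 (hT hx)).1, fun v hv => hS ?_⟩
    exact mem_biUnion.2 ⟨x, hx, hv⟩
  have h5 := card_le_card h4
  have h6 := hfree S hSc
  omega

/-- A set of triples with small union lies in `k` vertices. -/
theorem span_of_union {n k : ℕ} (hn : k ≤ n) (H T : Finset (Finset (Fin n))) (hT : T ⊆ H)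
    (h3 : (T.biUnion id).card ≤ k) :
    ∃ S : Finset (Fin n), S.card = k ∧ T.card ≤ (H.filter fun x => x ⊆ S).card := by
  obtain ⟨S, hS, -, hSc⟩ := exists_subsuperset_card_eq (subset_univ (T.biUnion id)) h3
    (by rw [card_univ, Fintype.card_fin]; exact hn)
  refine ⟨S, hSc, card_le_card ?_⟩
  intro x hx
  refine mem_filter.2 ⟨hT hx, fun v hv => hS ?_⟩
  exact mem_biUnion.2 ⟨x, hx, hv⟩

end Pool.Agent.Q266.HY
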